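import Pool.Agent.R341.Reg

set_option autoImplicit false

namespace Pool.Agent.Results.MP_32f763_nt.NeverRegular

open Pool.Agent.R341.Clog Pool.Agent.R341.Reg

/-- **The length `L(n)` of the continued logarithm of `n` is not `k`-regular, for any `k ≥ 2`.**
The first two clauses restate the recursion which defines the continued logarithm `cl`. -/
theorem result :
    (∀ k q : ℕ, 1 ≤ q → cl (2 ^ k * q) q = [k]) ∧
    (∀ k p q : ℕ, 1 ≤ q → 2 ^ k * q < p → p < 2 * (2 ^ k * q) →
      cl p q = k :: cl (2 ^ k * q) (p - 2 ^ k * q)) ∧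
    (∀ n : ℕ, L n = (cl n 1).length) ∧
    ∀ k : ℕ, 2 ≤ k → ¬ IsRegular k (fun n => (L n : ℤ)) := by
  refine ⟨?_, ?_, fun n => rfl, fun k hk => not_regular hk⟩
  · intro k q hq
    have h1 : 2 ^ k * q < 2 ^ (k + 1) * q := by
      apply Nat.mul_lt_mul_of_pos_right _ hq
      exact Nat.pow_lt_pow_right (by norm_num) (by omega)
    have hk := log_eq (p := 2 ^ k * q) hq le_rfl h1
    have hqp : q ≤ 2 ^ k * q := Nat.le_mul_of_pos_left _ (by positivity)
    rw [cl, dif_pos ⟨hq, hqp⟩, hk, if_pos rfl]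
  · intro k p q hq h1 h2
    have hk := log_eq hq h1.le (by rw [pow_succ]; linarith)
    have hqp : q ≤ p := le_trans (Nat.le_mul_of_pos_left _ (by positivity)) h1.le
    rw [cl, dif_pos ⟨hq, hqp⟩, hk, if_neg h1.ne']

end Pool.Agent.Results.MP_32f763_nt.NeverRegular
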